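import Pool.Agent.helper92.VC.Spec

/-!
# Row RIN: products of matrices satisfy Nisan's condition
-/

universe u

namespace Pool.Agent.helper92.VC

theorem RIN_mono {ι : Type} [DecidableEq ι] {K : Type u} [Field K] {w : ℕ} :
    ∀ (l : List ι) (S S' : Set ((ι → ℕ) → K)), S' ⊆ S → ROs K w l S → ROs K w l S'
  | [], S, S', h, ⟨g, hg⟩ => ⟨g, fun T hT => hg (h hT)⟩
  | x :: s, S, S', h, ⟨⟨g, hg⟩, h2⟩ =>
    ⟨⟨g, fun T hT => hg (h hT)⟩,
      RIN_mono s _ _ (by
        rintro T' ⟨T, hT, j, rfl⟩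
        exact ⟨T, h hT, j, rfl⟩) h2⟩

theorem RIN_dim {ι : Type} [DecidableEq ι] {K : Type u} [Field K] {w : ℕ}
    (M : ι → ℕ → Matrix (Fin w) (Fin w) K) (v : Fin w → K) (l : List ι) :
    DimLE K w {T | ∃ u : Fin w → K, T = fun e : ι → ℕ =>
      u ⬝ᵥ Matrix.mulVec (l.map fun x => M x (e x)).prod v} := by
  refine ⟨fun t e => Matrix.mulVec (l.map fun x => M x (e x)).prod v t, ?_⟩
  rintro T ⟨u, rfl⟩
  have h : (fun e : ι → ℕ => u ⬝ᵥ Matrix.mulVec (l.map fun x => M x (e x)).prod v)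
      = ∑ t, u t • (fun e : ι → ℕ => Matrix.mulVec (l.map fun x => M x (e x)).prod v t) := by
    funext e
    simp [dotProduct, Finset.sum_apply]
  rw [h]
  exact Submodule.sum_mem _ fun t _ => Submodule.smul_mem _ _ (Submodule.subset_span ⟨t, rfl⟩)

theorem RIN : RIN_stmt.{u} := by
  intro ι _ K _ w M v l
  induction l with
  | nil => intro _; exact RIN_dim M v []
  | cons x s ih =>
    intro hl
    rw [List.nodup_cons] at hl
    refine ⟨RIN_dim M v (x :: s), ?_⟩
    refine RIN_mono s _ _ ?_ (ih hl.2)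
    rintro T' ⟨T, ⟨u, rfl⟩, j, rfl⟩
    refine ⟨Matrix.vecMul u (M x j), ?_⟩
    funext e
    have h1 : (s.map fun y => M y (Function.update e x j y)) = s.map fun y => M y (e y) := by
      refine List.map_congr_left fun y hy => ?_
      have hne : y ≠ x := fun h => hl.1 (h ▸ hy)
      rw [Function.update_of_ne hne]
    simp only [restr, List.map_cons, List.prod_cons, Function.update_self]
    rw [h1, ← Matrix.mulVec_mulVec, Matrix.dotProduct_mulVec]

end Pool.Agent.helper92.VC
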